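import Pool.Agent.H677_SC.Basic

set_option autoImplicit false

open Finset

namespace Pool.Agent.Results.MP_8312d7_nt.FalseAtP37

/-- The generalised binomial coefficient `a (a - 1) ⋯ (a - k + 1) / k!`. -/
def gb (a : ℚ) (k : ℕ) : ℚ := (∏ i ∈ range k, (a - i)) / (k.factorial : ℚ)

/-- `S_1(p)`. -/
def S1 (p : ℕ) : ℚ := ∑ k ∈ range p, gb (-1 / 4) k * gb (-1 / 2) k / 4 ^ k

/-- `S_2(p)`. -/
def S2 (p : ℕ) : ℚ := ∑ k ∈ range p, gb (-1 / 2) k * gb (-1 / 6) k * 2 ^ k

/-- `u ≡ v` modulo `p ^ m` for rationals with denominator prime to `p`: the difference is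
`p ^ m` times a rational number whose denominator is not divisible by `p`. -/
def Congr (p m : ℕ) (u v : ℚ) : Prop := ∃ r : ℚ, ¬ p ∣ r.den ∧ u - v = (p : ℚ) ^ m * r

/-- The sign `(-1) ^ n` for an integer `n`. -/
def sgn (n : ℤ) : ℚ := ((n.negOnePow : ℤˣ) : ℤ)

/-- The statement of Q1 for the prime `p`. -/
def Assertion (p : ℕ) : Prop :=
  Congr p 2 (S1 p) (jacobiSym p 3 * S2 p) ∧
  (p % 12 = 1 → ∀ x y : ℤ, (p : ℤ) = x ^ 2 + y ^ 2 → Odd x →
    Congr p 2 (S1 p) (sgn (((p : ℤ) - 1) / 4 + (x + 1) / 2) * (2 * x - p / (2 * x)))) ∧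
  (p % 12 = 5 → ∃ x y : ℤ, (p : ℤ) = x ^ 2 + y ^ 2 ∧ Odd x ∧ Congr p 2 (S1 p) (2 * y - p / (2 * y)))

/-- Q1 as posed is false. -/
theorem result : ¬ ∀ p : ℕ, p.Prime → p % 4 = 1 → Assertion p := by
  intro h
  obtain ⟨r, hr, he⟩ := (h 37 (by norm_num) (by norm_num)).2.1 (by norm_num) 1 6 (by norm_num)
    (by decide)
  have hs : sgn ((((37 : ℕ) : ℤ) - 1) / 4 + (1 + 1) / 2) = 1 := by
    have : (((((37 : ℕ) : ℤ) - 1) / 4 + (1 + 1) / 2).negOnePow : ℤˣ) = 1 := by decide
    rw [sgn, this]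
    norm_num
  rw [hs] at he
  have hS : S1 37 = 468419886668542132957540260609612684067982116110294346208371151376442822209 / 452312848583266388373324160190187140051835877600158453279131187530910662656 := by
    decide +kernel
  have key := Pool.Agent.H677_SC.dvd_of_den (p := 37) (m := 2) (by norm_num) hr
    (d := 452312848583266388373324160190187140051835877600158453279131187530910662656)
    (N := 7931581888292437541117388903747700494923274096512908825314035745636468756033) (by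
      rw [← he, hS]
      norm_num)
  revert key
  norm_num

end Pool.Agent.Results.MP_8312d7_nt.FalseAtP37
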